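import Pool.Agent.Helper47K9.SH.K8

/-!
# Nearest neighbour stirring: any given points are in one cycle with probability `1 / k + o(1)` at
# times of order `L ^ (4 / (d + 2)) log L`

`stirExp J t F` (Pool.Agent.Y998.ST.Defs) is the expectation of `F` under random stirring with rates
`J` at time `t`, started at the identity, and `nnRate d L` are the rates `1` for the nearest
neighbours of the torus `(ℤ / L)^d`.
-/

set_option autoImplicit false

namespace Pool.Agent.Results.MP_6c3d62_pr.OneCycleBelowMixing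

open Finset Equiv
open Pool.Agent.Y998.ST (stirExp nnRate)

/-- The `ℓ¹` distance on the torus. -/
def torusDist {d L : ℕ} (x y : Fin d → ZMod L) : ℕ := ∑ i, (x i - y i).valMinAbs.natAbs

theorem dist_le {d L : ℕ} [NeZero L] (x y : Fin d → ZMod L) :
    (torusDist x y : ℝ) ≤ d * L := by
  have h1 : torusDist x y ≤ ∑ _i : Fin d, L := by
    unfold torusDist
    refine Finset.sum_le_sum fun i _ => ?_
    exact (ZMod.natAbs_valMinAbs_le _).trans (Nat.div_le_self _ _)
  rw [Finset.sum_const, Finset.card_univ, Fintype.card_fin, smul_eq_mul] at h1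
  exact_mod_cast h1

open Classical in
/-- Nearest neighbour random stirring (the interchange process) on the torus `(ℤ / L)^d`, `d ≥ 1`
arbitrary, started at the identity, `k ≥ 1` and `ε > 0`.
(1) There are `T` and `κ > 0` such that for all `L ≥ 3`, all times `t ≥ T` and any `k` different
points at mutual distance at most `κ (t / log t) ^ ((d + 2) / 4)`, the probability that these points
are in one cycle is within `ε` of `1 / k`.
(2) There is `A` such that for all `L ≥ A`, all times `t ≥ 2` with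
`t / log t ≥ A L ^ (4 / (d + 2))` and any `k` different points of the torus the same holds. -/
theorem result (d : ℕ) (hd : 1 ≤ d) (k : ℕ) (hk : 1 ≤ k) (ε : ℝ) (hε : 0 < ε) :
    (∃ T : ℝ, 0 < T ∧ ∃ κ : ℝ, 0 < κ ∧ ∀ (L : ℕ) [NeZero L], 3 ≤ L → ∀ t : ℝ, T ≤ t →
      ∀ b : Fin k → Fin d → ZMod L, Function.Injective b →
      (∀ i j, (torusDist (b i) (b j) : ℝ) ≤ κ * (t / Real.log t) ^ (((d : ℝ) + 2) / 4)) →
      |stirExp (nnRate d L) t (fun g => if ∀ i j, g.SameCycle (b i) (b j) then 1 else 0) - 1 / k| ≤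
        ε) ∧
    ∃ A : ℝ, 0 < A ∧ ∀ (L : ℕ) [NeZero L], A ≤ L → ∀ t : ℝ, 2 ≤ t →
      A * (L : ℝ) ^ (4 / ((d : ℝ) + 2)) ≤ t / Real.log t →
      ∀ b : Fin k → Fin d → ZMod L, Function.Injective b →
      |stirExp (nnRate d L) t (fun g => if ∀ i j, g.SameCycle (b i) (b j) then 1 else 0) - 1 / k| ≤
        ε := by
  obtain ⟨T, hT, κ, hκ, h⟩ := Pool.Agent.Helper47K9.SH.kpt3 d hd k hk ε hε
  have h' : ∀ (L : ℕ) [NeZero L], 3 ≤ L → ∀ t : ℝ, T ≤ t →
      ∀ b : Fin k → Fin d → ZMod L, Function.Injective b →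
      (∀ i j, (torusDist (b i) (b j) : ℝ) ≤ κ * (t / Real.log t) ^ (((d : ℝ) + 2) / 4)) →
      |stirExp (nnRate d L) t (fun g => if ∀ i j, g.SameCycle (b i) (b j) then 1 else 0) - 1 / k| ≤
        ε := by
    intro L _ hL t ht b hb hdis
    have h1 := h L hL t ht b hb (fun i j => hdis i j)
    convert h1
  refine ⟨⟨T, hT, κ, hκ, fun L _ hL t ht b hb hdis => h' L hL t ht b hb hdis⟩, ?_⟩
  obtain ⟨A₀, hA₀, hglob⟩ := Pool.Agent.Helper47K9.SH.glob d κ hκ
  refine ⟨3 + 2 * T + A₀, by positivity, ?_⟩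
  intro L _ hAL t ht2 ht b hb
  have hL3r : (3 : ℝ) ≤ L := by linarith
  have hL : 3 ≤ L := by exact_mod_cast hL3r
  have hLα : (1 : ℝ) ≤ (L : ℝ) ^ (4 / ((d : ℝ) + 2)) :=
    Real.one_le_rpow (by linarith) (by positivity)
  have h1 : A₀ * (L : ℝ) ^ (4 / ((d : ℝ) + 2)) ≤ t / Real.log t := by
    refine le_trans (mul_le_mul_of_nonneg_right ?_ (by linarith)) ht
    linarith
  have htT : T ≤ t := by
    have h2 : 2 * T ≤ t / Real.log t := by
      refine le_trans ?_ ht
      have h3 : 3 + 2 * T + A₀ ≤ (3 + 2 * T + A₀) * (L : ℝ) ^ (4 / ((d : ℝ) + 2)) :=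
        le_mul_of_one_le_right (by linarith) hLα
      linarith
    have := Pool.Agent.Helper47K9.SH.t_large ht2 h2
    linarith
  exact h' L hL t htT b hb fun i j => (dist_le (b i) (b j)).trans (hglob L t ht2 h1)

end Pool.Agent.Results.MP_6c3d62_pr.OneCycleBelowMixing
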